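import Mathlib

/-!
# A holomorphic periodic function on the right half-plane grows at least like `exp` or is bounded

`growth_or_bounded`: let `h` be holomorphic on `re s > 0` with period `2πi`.  Either there are
`c > 0` and `σ₀` with `max_{re s = σ} ‖h s‖ ≥ c exp σ` for all `σ ≥ σ₀`, or `h` is bounded on
`re s ≥ 1`.
-/

namespace Pool.Agent.K9h39.GB

open Complex Filter Topology Set

theorem per_int {h : ℂ → ℂ}
    (hper : ∀ s : ℂ, 0 < s.re → h (s + 2 * Real.pi * Complex.I) = h s)
    (n : ℤ) {s : ℂ} (hs : 0 < s.re) : h (s + n * (2 * Real.pi * Complex.I)) = h s := by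
  induction n using Int.induction_on with
  | zero => simp
  | succ n ih =>
      have := hper (s + (n : ℤ) * (2 * Real.pi * Complex.I)) (by simpa using hs)
      rw [← ih, ← this]
      congr 1
      push_cast
      ring
  | pred n ih =>
      have := hper (s + ((-n - 1 : ℤ) : ℂ) * (2 * Real.pi * Complex.I)) (by simpa using hs)
      rw [← this, ← ih]
      congr 1
      push_cast
      ring

theorem bdd_strip {h : ℂ → ℂ} (hc : ContinuousOn h {s : ℂ | 0 < s.re})
    (hper : ∀ s : ℂ, 0 < s.re → h (s + 2 * Real.pi * Complex.I) = h s)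
    {a b : ℝ} (ha : 0 < a) : ∃ K : ℝ, ∀ s : ℂ, a ≤ s.re → s.re ≤ b → ‖h s‖ ≤ K := by
  have hcomp : IsCompact (Icc a b ×ℂ Icc 0 (2 * Real.pi)) :=
    isCompact_Icc.reProdIm isCompact_Icc
  obtain ⟨K, hK⟩ := hcomp.exists_bound_of_continuousOn (f := h) (hc.mono (by
    intro s hs
    rw [Complex.mem_reProdIm] at hs
    exact lt_of_lt_of_le ha hs.1.1))
  refine ⟨K, fun s h1 h2 => ?_⟩
  have hpi : (0 : ℝ) < 2 * Real.pi := by positivity
  set m : ℤ := ⌊s.im / (2 * Real.pi)⌋ with hm
  have e1 : (m : ℝ) * (2 * Real.pi) ≤ s.im := by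
    have := Int.floor_le (s.im / (2 * Real.pi))
    rwa [← hm, le_div_iff₀ hpi] at this
  have e2 : s.im < ((m : ℝ) + 1) * (2 * Real.pi) := by
    have := Int.lt_floor_add_one (s.im / (2 * Real.pi))
    rwa [← hm, div_lt_iff₀ hpi] at this
  have e3 : h (s + (-m : ℤ) * (2 * Real.pi * Complex.I)) = h s :=
    per_int hper (-m) (lt_of_lt_of_le ha h1)
  rw [← e3]
  apply hK
  rw [Complex.mem_reProdIm]
  have r1 : (s + ((-m : ℤ) : ℂ) * (2 * Real.pi * Complex.I)).re = s.re := by
    simp
  have r2 : (s + ((-m : ℤ) : ℂ) * (2 * Real.pi * Complex.I)).im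
      = s.im - m * (2 * Real.pi) := by
    simp
    ring
  rw [r1, r2]
  refine ⟨⟨h1, h2⟩, ?_, ?_⟩
  · linarith
  · nlinarith

/-- Maximum principle in a strip for periodic functions. -/
theorem strip_max {k : ℂ → ℂ} (hd : DifferentiableOn ℂ k {s : ℂ | 0 < s.re})
    (hper : ∀ s : ℂ, 0 < s.re → k (s + 2 * Real.pi * Complex.I) = k s)
    {a b C : ℝ} (ha : 0 < a) (hab : a < b)
    (h1 : ∀ s : ℂ, s.re = a → ‖k s‖ ≤ C) (h2 : ∀ s : ℂ, s.re = b → ‖k s‖ ≤ C)
    {s : ℂ} (has : a ≤ s.re) (hsb : s.re ≤ b) : ‖k s‖ ≤ C := by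
  refine PhragmenLindelof.vertical_strip (a := a) (b := b) (f := k) ?_ ?_ h1 h2 has hsb
  · have hcl : closure (re ⁻¹' Ioo a b) ⊆ {s : ℂ | 0 < s.re} := by
      rw [Complex.closure_preimage_re, closure_Ioo hab.ne]
      intro z hz
      exact lt_of_lt_of_le ha hz.1
    exact ⟨hd.mono (subset_closure.trans hcl), hd.continuousOn.mono hcl⟩
  · obtain ⟨K, hK⟩ := bdd_strip hd.continuousOn hper (b := b) ha
    refine ⟨0, div_pos Real.pi_pos (by linarith), 0, ?_⟩
    refine Asymptotics.IsBigO.of_bound K ?_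
    rw [eventually_inf_principal]
    refine Eventually.of_forall fun z hz => ?_
    simpa using hK z hz.1.le hz.2.le

theorem growth_or_bounded {h : ℂ → ℂ} (hd : DifferentiableOn ℂ h {s : ℂ | 0 < s.re})
    (hper : ∀ s : ℂ, 0 < s.re → h (s + 2 * Real.pi * Complex.I) = h s) :
    (∃ c σ0 : ℝ, 0 < c ∧ ∀ σ : ℝ, σ0 ≤ σ → ∃ s : ℂ, s.re = σ ∧ c * Real.exp σ ≤ ‖h s‖) ∨
    (∃ K : ℝ, ∀ s : ℂ, 1 ≤ s.re → ‖h s‖ ≤ K) := by
  by_cases hG : ∃ c σ0 : ℝ, 0 < c ∧ ∀ σ : ℝ, σ0 ≤ σ → ∃ s : ℂ, s.re = σ ∧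
      c * Real.exp σ ≤ ‖h s‖
  · exact Or.inl hG
  right
  push Not at hG
  have hopen : IsOpen {s : ℂ | 0 < s.re} := isOpen_lt continuous_const Complex.continuous_re
  -- the function `k s = exp (-s) h s`
  set k : ℂ → ℂ := fun s => Complex.exp (-s) * h s with hk
  have hkd : DifferentiableOn ℂ k {s : ℂ | 0 < s.re} :=
    (Complex.differentiable_exp.comp differentiable_neg).differentiableOn.mul hd
  have hexpper : ∀ s : ℂ, Complex.exp (-(s + 2 * Real.pi * Complex.I)) = Complex.exp (-s) := by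
    intro s
    rw [neg_add, Complex.exp_add, Complex.exp_neg (2 * Real.pi * Complex.I),
      Complex.exp_two_pi_mul_I]
    simp
  have hkper : ∀ s : ℂ, 0 < s.re → k (s + 2 * Real.pi * Complex.I) = k s := by
    intro s hs
    simp only [hk]
    rw [hexpper, hper s hs]
  have hknorm : ∀ s : ℂ, ‖k s‖ = Real.exp (-s.re) * ‖h s‖ := by
    intro s
    simp [hk, Complex.norm_exp]
  -- circles
  have hcirc : ∀ c σ0 : ℝ, 0 < c → ∃ σ, σ0 ≤ σ ∧ ∀ s : ℂ, s.re = σ → ‖k s‖ ≤ c := by
    intro c σ0 hc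
    obtain ⟨σ, h1, h2⟩ := hG c σ0 hc
    refine ⟨σ, h1, fun s hs => ?_⟩
    have := h2 s hs
    rw [hknorm, hs, Real.exp_neg]
    rw [inv_mul_le_iff₀ (Real.exp_pos σ)]
    linarith [this]
  -- `k` tends to `0`
  have hzero : ∀ ε : ℝ, 0 < ε → ∃ A : ℝ, 0 < A ∧ ∀ s : ℂ, A ≤ s.re → ‖k s‖ ≤ ε := by
    intro ε hε
    obtain ⟨σ1, h1, h1'⟩ := hcirc ε 1 hε
    refine ⟨σ1, by linarith, fun s hs => ?_⟩
    obtain ⟨σ2, h2, h2'⟩ := hcirc ε (s.re + 1) hε
    exact strip_max hkd hkper (a := σ1) (b := σ2) (by linarith) (by linarith) h1' h2' hs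
      (by linarith)
  -- pass to the upper half-plane
  set f : ℂ → ℂ := fun z => if 0 < z.im then k (-Complex.I * z) else 0 with hf
  have hre : ∀ z : ℂ, (-Complex.I * z).re = z.im := by
    intro z
    simp
  have hfper : Function.Periodic f (((2 * Real.pi : ℝ) : ℂ)) := by
    intro z
    have him : (z + ((2 * Real.pi : ℝ) : ℂ)).im = z.im := by simp
    simp only [hf]
    rw [him]
    split_ifs with hz
    · have e := per_int (h := k) hkper (-1) (s := -Complex.I * z) (by rw [hre]; exact hz)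
      rw [← e]
      congr 1
      push_cast
      ring
    · rfl
  have hfhol : ∀ᶠ z in Filter.comap Complex.im atTop, DifferentiableAt ℂ f z := by
    rw [eventually_comap]
    filter_upwards [eventually_gt_atTop (0 : ℝ)] with a ha z hz
    have hz' : 0 < z.im := by rw [hz]; exact ha
    have hop : IsOpen {w : ℂ | 0 < w.im} := isOpen_lt continuous_const Complex.continuous_im
    have e1 : f =ᶠ[𝓝 z] fun w => k (-Complex.I * w) := by
      filter_upwards [hop.mem_nhds hz'] with w hw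
      simp only [hf]
      rw [if_pos hw]
    refine DifferentiableAt.congr_of_eventuallyEq ?_ e1
    have e2 : DifferentiableAt ℂ k (-Complex.I * z) :=
      hkd.differentiableAt (hopen.mem_nhds (by
        show 0 < (-Complex.I * z).re
        rw [hre]; exact hz'))
    exact e2.comp z ((differentiableAt_id).const_mul _)
  have hfz : Filter.ZeroAtFilter (Filter.comap Complex.im atTop) f := by
    rw [Filter.ZeroAtFilter, Metric.tendsto_nhds]
    intro ε hε
    obtain ⟨A, hA, hA'⟩ := hzero (ε / 2) (by positivity)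
    rw [eventually_comap]
    filter_upwards [eventually_ge_atTop A] with a ha z hz
    have hz' : 0 < z.im := by rw [hz]; linarith
    rw [dist_zero_right]
    simp only [hf]
    rw [if_pos hz']
    have := hA' (-Complex.I * z) (by rw [hre, hz]; exact ha)
    linarith
  have hdec := Function.Periodic.exp_decay_of_zero_at_inf (h := 2 * Real.pi) (f := f)
    (by positivity) hfper hfhol hfz
  rw [Asymptotics.isBigO_iff] at hdec
  obtain ⟨C, hC⟩ := hdec
  rw [eventually_comap] at hC
  rw [eventually_atTop] at hC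
  obtain ⟨A, hA⟩ := hC
  obtain ⟨K, hK⟩ := bdd_strip hd.continuousOn hper (a := 1) (b := max A 1) one_pos
  refine ⟨max C K, fun s hs => ?_⟩
  by_cases hsA : max A 1 ≤ s.re
  · have hA' : A ≤ s.re := le_trans (le_max_left _ _) hsA
    have hs0 : 0 < s.re := by linarith
    have him : (Complex.I * s).im = s.re := by simp
    have h3 := hA s.re hA' (Complex.I * s) him
    have h4 : f (Complex.I * s) = k s := by
      simp only [hf]
      rw [him, if_pos hs0]
      congr 1
      rw [← mul_assoc]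
      simp
    rw [h4, hknorm, him] at h3
    have h5 : ‖Real.exp (-2 * Real.pi * s.re / (2 * Real.pi))‖ = Real.exp (-s.re) := by
      rw [Real.norm_eq_abs, abs_of_pos (Real.exp_pos _)]
      congr 1
      field_simp
    rw [h5] at h3
    have h6 : ‖h s‖ ≤ C := by
      have := Real.exp_pos (-s.re)
      nlinarith
    exact h6.trans (le_max_left _ _)
  · push Not at hsA
    exact (hK s hs hsA.le).trans (le_max_right _ _)

end Pool.Agent.K9h39.GB
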